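import Pool.Agent.Helper47.HInt8
import Pool.Agent.Helper47.HInt10

open Filter Topology

namespace Pool.Agent.Results.MP_d900bd_co.StarForests

/-- A family `F` of graphs on `[n]` is `H`-intersecting: for any two members `G₁, G₂` (possibly
equal) the graph `G₁ ⊓ G₂` (common edges) contains a, not necessarily induced, copy of `H`. -/
def HIntersecting {W : Type*} (H : SimpleGraph W) {n : ℕ}
    (F : Finset (SimpleGraph (Fin n))) : Prop :=
  ∀ G₁ ∈ F, ∀ G₂ ∈ F, H.IsContained (G₁ ⊓ G₂)

/-- `g H n` is the largest size of an `H`-intersecting family of graphs on `[n]`. -/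
noncomputable def g {W : Type*} (H : SimpleGraph W) (n : ℕ) : ℕ :=
  sSup {k | ∃ F : Finset (SimpleGraph (Fin n)), HIntersecting H F ∧ F.card = k}

/-- `H` is a forest of stars: every connected component `C` has a center `v`, and two vertices of
`C` are adjacent exactly when they are distinct and one of them is `v` (so `C` is a star `K_{1,m}`,
where `m = 0` is an isolated vertex). -/
def IsForestOfStars {W : Type*} (H : SimpleGraph W) : Prop :=
  ∀ C : H.ConnectedComponent, ∃ v ∈ C.supp, ∀ a ∈ C.supp, ∀ b ∈ C.supp,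
    (H.Adj a b ↔ a ≠ b ∧ (a = v ∨ b = v))

section Aux

variable {W : Type*} (H : SimpleGraph W) (n : ℕ)

lemma bdd : BddAbove {k | ∃ F : Finset (SimpleGraph (Fin n)), HIntersecting H F ∧ F.card = k} := by
  refine ⟨Fintype.card (SimpleGraph (Fin n)), ?_⟩
  rintro k ⟨F, -, rfl⟩
  exact Finset.card_le_univ F

lemma exists_g : ∃ F : Finset (SimpleGraph (Fin n)), HIntersecting H F ∧ F.card = g H n := by
  have h := Nat.sSup_mem (s := {k | ∃ F : Finset (SimpleGraph (Fin n)),
    HIntersecting H F ∧ F.card = k}) ⟨0, ∅, by intro G₁ h1; simp at h1, rfl⟩ (bdd H n)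
  exact h

lemma le_g {F : Finset (SimpleGraph (Fin n))} (hF : HIntersecting H F) : F.card ≤ g H n :=
  le_csSup (bdd H n) ⟨F, hF, rfl⟩

lemma card_graphs : (Fintype.card (SimpleGraph (Fin n)) : ℝ) = 2 ^ (n.choose 2) := by
  have h1 : Fintype.card (SimpleGraph (Fin n)) =
      Fintype.card (Helper47.HInt.Ed (Fin n) → Bool) :=
    Fintype.card_congr ⟨Helper47.HInt.enc, Helper47.HInt.gr, Helper47.HInt.gr_enc,
      Helper47.HInt.enc_gr⟩
  rw [h1, Fintype.card_fun, Helper47.HInt.card_Ed, Fintype.card_fin, Fintype.card_bool]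
  push_cast
  rfl

/-- `K_{t,t}` with `t ≥ 2` is not a forest of stars. -/
lemma not_star_bipartite (t : ℕ) (ht : 2 ≤ t) :
    ¬ IsForestOfStars (completeBipartiteGraph (Fin t) (Fin t)) := by
  intro h
  set K := completeBipartiteGraph (Fin t) (Fin t) with hK
  have h0 : ∀ a b : Fin t, K.Adj (Sum.inl a) (Sum.inr b) := by
    intro a b
    simp [hK, completeBipartiteGraph]
  set a0 : Fin t := ⟨0, by omega⟩
  set a1 : Fin t := ⟨1, by omega⟩
  have hne : a0 ≠ a1 := by
    intro h
    have := congrArg Fin.val h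
    simp [a0, a1] at this
  obtain ⟨v, -, hv⟩ := h (K.connectedComponentMk (Sum.inl a0))
  have m1 : (Sum.inr a0 : Fin t ⊕ Fin t) ∈ (K.connectedComponentMk (Sum.inl a0)).supp :=
    SimpleGraph.ConnectedComponent.sound (h0 a0 a0).symm.reachable
  have m2 : (Sum.inr a1 : Fin t ⊕ Fin t) ∈ (K.connectedComponentMk (Sum.inl a0)).supp :=
    SimpleGraph.ConnectedComponent.sound (h0 a0 a1).symm.reachable
  have m3 : (Sum.inl a1 : Fin t ⊕ Fin t) ∈ (K.connectedComponentMk (Sum.inl a0)).supp :=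
    SimpleGraph.ConnectedComponent.sound ((h0 a1 a0).reachable.trans (h0 a0 a0).symm.reachable)
  have e1 := ((hv _ rfl _ m1).1 (h0 a0 a0)).2
  have e2 := ((hv _ m3 _ m2).1 (h0 a1 a1)).2
  rcases e1 with rfl | rfl <;> rcases e2 with e2 | e2
  · exact hne (Sum.inl.inj e2).symm
  · simp at e2
  · simp at e2
  · exact hne (Sum.inr.inj e2).symm

end Aux

/-- **Graphs with asymptotically half-size `H`-intersecting families.**

For a finite graph `H` with at least one edge, `g_H(n) = (1 - o(1)) 2^{C(n,2)-1}` if and only if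
`H` is a forest of stars.  Moreover, there is an absolute constant `c` (here `10^{-7}`) such that
`g_H(n) ≤ (1 - c) 2^{C(n,2)-1}` for every finite graph `H` that is not a forest of stars and every
`n`; in particular for `K_{t,t}`, `t ≥ 2`. -/
theorem result :
    (∀ (W : Type) [Fintype W] (H : SimpleGraph W), H ≠ ⊥ →
      (Tendsto (fun n : ℕ => (g H n : ℝ) / (2 ^ (n.choose 2) / 2)) atTop (𝓝 1) ↔
        IsForestOfStars H)) ∧
    (∀ (W : Type) [Fintype W] (H : SimpleGraph W), ¬ IsForestOfStars H →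
      ∀ n : ℕ, (g H n : ℝ) ≤ (1 - 1 / 10 ^ 7) * (2 ^ (n.choose 2) / 2)) ∧
    (∀ t : ℕ, 2 ≤ t → ∀ n : ℕ, (g (completeBipartiteGraph (Fin t) (Fin t)) n : ℝ) ≤
      (1 - 1 / 10 ^ 7) * (2 ^ (n.choose 2) / 2)) := by
  have hup : ∀ (W : Type) [Fintype W] (H : SimpleGraph W), ¬ IsForestOfStars H →
      ∀ n : ℕ, (g H n : ℝ) ≤ (1 - 1 / 10 ^ 7) * (2 ^ (n.choose 2) / 2) := by
    intro W _ H hH n
    obtain ⟨F, hF, hF2⟩ := exists_g H n
    have h1 := Helper47.HInt.upper H (fun h => hH (Helper47.HInt.star_of_leafLab H h)) F hF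
    rw [Fintype.card_fin, hF2] at h1
    exact h1
  refine ⟨?_, hup, fun t ht n => hup _ _ (not_star_bipartite t ht) n⟩
  intro W _ H hne
  constructor
  · intro ht
    by_contra hH
    have h1 : ∀ n : ℕ, (g H n : ℝ) / (2 ^ (n.choose 2) / 2) ≤ 1 - 1 / 10 ^ 7 := by
      intro n
      rw [div_le_iff₀ (by positivity)]
      exact hup W H hH n
    have h2 := le_of_tendsto' ht h1
    norm_num at h2
  · intro hH
    have hW : Nonempty W := by
      rw [SimpleGraph.ne_bot_iff_exists_adj] at hne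
      obtain ⟨a, -⟩ := hne
      exact ⟨a⟩
    rw [Metric.tendsto_atTop]
    intro ε hε
    obtain ⟨N, hN⟩ := Helper47.HInt.lower H hH hW (ε / 2) (by linarith)
    refine ⟨N, fun n hn => ?_⟩
    obtain ⟨F, hF, hF2⟩ := hN n hn
    rw [card_graphs] at hF2
    have h1 : (F.card : ℝ) ≤ g H n := by exact_mod_cast le_g H n hF
    obtain ⟨F', hF', hF2'⟩ := exists_g H n
    have h2 := Helper47.HInt.upper_trivial H hne F' hF'
    rw [Fintype.card_fin, hF2'] at h2
    have hpos : (0 : ℝ) < 2 ^ (n.choose 2) / 2 := by positivity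
    have h3 : (g H n : ℝ) / (2 ^ (n.choose 2) / 2) ≤ 1 := by
      rw [div_le_one hpos]
      exact h2
    have h4 : 1 - ε / 2 ≤ (g H n : ℝ) / (2 ^ (n.choose 2) / 2) := by
      rw [le_div_iff₀ hpos]
      linarith
    rw [Real.dist_eq, abs_sub_lt_iff]
    constructor <;> linarith

end Pool.Agent.Results.MP_d900bd_co.StarForests
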